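import Pool.Agent.Lib.MP_08a7f3_co.Op.Main

namespace Pool.Agent.Results.MP_08a7f3_co.OneParity

open Pool.Agent.Lib.MP_08a7f3_co

theorem result (S : Set ℕ) :
    ((∃ (V : Type) (_ : Finite V) (_ : Nontrivial V) (G : SimpleGraph V),
        G.Connected ∧ spectrum G = S) ∧ ∀ x ∈ S, ∀ y ∈ S, x % 2 = y % 2) ↔
      (∃ n, 2 ≤ n ∧ S = {n}) ∨ ∃ m c : ℕ, 1 ≤ m ∧ m ≤ c ∧ c + m ≤ m ^ 2 + 1 ∧
        (c + 3 * m ≤ m ^ 2 + 7 ∨ m ^ 2 + 1 ≤ c + 2 * m ∧ c + 2 * m ≤ m ^ 2 + 4 ∨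
          c + m = m ^ 2 + 1) ∧ S = {t | 2 * m ≤ t ∧ t ≤ 2 * c ∧ Even t} :=
  one_parity S

end Pool.Agent.Results.MP_08a7f3_co.OneParity
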