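import Pool.Agent.Lib.MP_08a7f3_co.Shape

namespace Pool.Agent.Results.MP_08a7f3_co.Shape

open Pool.Agent.Lib.MP_08a7f3_co

theorem result {V : Type} [Finite V] (G : SimpleGraph V) (hG : G.Connected) :
    ∃ a α β b : ℕ, a ≤ α ∧ α ≤ β ∧ β ≤ b ∧ a % 2 = α % 2 ∧ b % 2 = β % 2 ∧
      spectrum G = {t | a ≤ t ∧ t ≤ b ∧ (t < α → t % 2 = α % 2) ∧ (β < t → t % 2 = β % 2)} :=
  shape hG

end Pool.Agent.Results.MP_08a7f3_co.Shape
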